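import Pool.Agent.H37.CTR.Stmts

/-!
# Denominators of conductors: `Sp_4(q)`, `q` odd: `N = q (q ^ 2 - 1) / 2`: statements of the rows of the board `ctt`

Row `XXX` is a theorem `xxx_thm (h1 : S_AAA) ... : S_XXX` in `Pool/Agent/H<k>/CTT/XXX.lean`, importing this
file, namespace `Pool.CND`.

Two covers: the splitting fields over `k(t)` of `E(T) = T ^ (q ^ 4) - a ^ q T ^ (q ^ 3) - b T ^ (q ^ 2) - a T ^ q + T` with
`a = t, b = 0` (II) and `a = 1, b = t` (I).  The form `sB` on the roots has values in `F`.  `e = - P.ord t`.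
(II) orders: `X_0`: `e / (q - 1)`; `X_1, X_2`: `e / (q (q + 1))`; `X_3`: `- e / (q ^ 2 (q - 1))`; conductor `(q ^ 2 + 1) / (q (q - 1))`.
(I) orders: `X_0, X_1`: `e / (q ^ 2 - 1)`; `X_2, X_3`: `- e / (q ^ 2 (q ^ 2 - 1))`; conductor `(q ^ 2 + 1) / (q ^ 2 - 1)`.
-/

set_option autoImplicit false

namespace Pool.CND

open Finset Polynomial Matrix

/-- the matrix of the form: `B(e_0, e_3) = B(e_1, e_2) = 1` -/
def J4s (F : Type) [Field F] : Matrix (Fin 4) (Fin 4) F :=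
  !![0, 0, 0, 1; 0, 0, 1, 0; 0, -1, 0, 0; -1, 0, 0, 0]

/-- `Sp_4(F)` -/
def Sp4 (F : Type) [Field F] : Subgroup (Matrix.SpecialLinearGroup (Fin 4) F) where
  carrier := {g | g.1ᵀ * J4s F * g.1 = J4s F}
  mul_mem' := by
    intro a b ha hb
    simp only [Set.mem_setOf_eq] at ha hb ⊢
    show (a.1 * b.1)ᵀ * J4s F * (a.1 * b.1) = J4s F
    calc (a.1 * b.1)ᵀ * J4s F * (a.1 * b.1) = b.1ᵀ * (a.1ᵀ * J4s F * a.1) * b.1 := by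
          rw [Matrix.transpose_mul]
          simp only [Matrix.mul_assoc]
      _ = J4s F := by rw [ha, hb]
  one_mem' := by
    simp only [Set.mem_setOf_eq]
    show (1 : Matrix (Fin 4) (Fin 4) F)ᵀ * J4s F * 1 = J4s F
    rw [Matrix.transpose_one, Matrix.one_mul, Matrix.mul_one]
  inv_mem' := by
    intro a ha
    simp only [Set.mem_setOf_eq] at ha ⊢
    have h1 : a.1 * (a⁻¹).1 = 1 := by
      show (a * a⁻¹).1 = 1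
      rw [mul_inv_cancel]
      rfl
    have h2 : (a⁻¹).1ᵀ * a.1ᵀ = 1 := by
      rw [← Matrix.transpose_mul, h1, Matrix.transpose_one]
    calc (a⁻¹).1ᵀ * J4s F * (a⁻¹).1
        = (a⁻¹).1ᵀ * (a.1ᵀ * J4s F * a.1) * (a⁻¹).1 := by rw [ha]
      _ = ((a⁻¹).1ᵀ * a.1ᵀ) * J4s F * (a.1 * (a⁻¹).1) := by simp only [Matrix.mul_assoc]
      _ = J4s F := by rw [h1, h2, Matrix.one_mul, Matrix.mul_one]

/-- the form on `F ^ 4` -/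
def frm {F : Type} [Field F] (u v : Fin 4 → F) : F := u ⬝ᵥ (J4s F *ᵥ v)

/-- the form on the roots of `E` -/
def sB {L : Type} [Field L] (q : ℕ) (a x y : L) : L :=
  (x ^ q ^ 2 * y - x * y ^ q ^ 2) + (x ^ q ^ 2 * y - x * y ^ q ^ 2) ^ q -
    a * (x ^ q ^ 2 * y ^ q - x ^ q * y ^ q ^ 2)

/-- the roots `X i` of `E` -/
structure SpR (k F L : Type) [Field k] [Field F] [Field L] [Algebra F k] [Algebra k L]
    (q : ℕ) (t a b : L) (X : Fin 4 → L) : Prop where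
  rel : ∀ i, X i ^ q ^ 4 - a ^ q * X i ^ q ^ 3 - b * X i ^ q ^ 2 - a * X i ^ q + X i = 0
  ind : ∀ c : Fin 4 → F, ∑ i, cst k F L (c i) * X i = 0 → c = 0
  tr : Transcendental k t
  gram : ∀ i j, sB q a (X i) (X j) = cst k F L (J4s F i j)

/-- (II): orders of the roots at `P` -/
structure SpO2 (k F L : Type) [Field k] [Field F] [Field L] [Algebra F k] [Algebra k L]
    (q : ℕ) (t : L) (X : Fin 4 → L) (P : Place k L) : Prop where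
  neg : P.ord t < 0
  small : ((q : ℤ) - 1) * P.ord (X 0) = -P.ord t
  mid : ∀ c : Fin 4 → F, c 3 = 0 → (c 1 ≠ 0 ∨ c 2 ≠ 0) →
    (q : ℤ) * ((q : ℤ) + 1) * P.ord (∑ i, cst k F L (c i) * X i) = -P.ord t
  top : ∀ c : Fin 4 → F, c 3 ≠ 0 →
    (q : ℤ) ^ 2 * ((q : ℤ) - 1) * P.ord (∑ i, cst k F L (c i) * X i) = P.ord t

/-- (I): orders of the roots at `P` -/
structure SpO1 (k F L : Type) [Field k] [Field F] [Field L] [Algebra F k] [Algebra k L]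
    (q : ℕ) (t : L) (X : Fin 4 → L) (P : Place k L) : Prop where
  neg : P.ord t < 0
  small : ∀ c : Fin 4 → F, c 2 = 0 → c 3 = 0 → (c 0 ≠ 0 ∨ c 1 ≠ 0) →
    ((q : ℤ) ^ 2 - 1) * P.ord (∑ i, cst k F L (c i) * X i) = -P.ord t
  top : ∀ c : Fin 4 → F, (c 2 ≠ 0 ∨ c 3 ≠ 0) →
    (q : ℤ) ^ 2 * ((q : ℤ) ^ 2 - 1) * P.ord (∑ i, cst k F L (c i) * X i) = P.ord t

/-- `g e_0 = e_0` and `g x - x ∈ ⟨e_0⟩` for `x ∈ e_0^⊥ = ⟨e_0, e_1, e_2⟩` -/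
def Heis {F : Type} [Field F] (g : Matrix (Fin 4) (Fin 4) F) : Prop :=
  g 0 0 = 1 ∧ (∀ i j, i ≠ 0 → j ≠ 3 → g i j = if i = j then 1 else 0) ∧ g 3 3 = 1

/-- `g` is the identity on `⟨e_0, e_1⟩` and modulo `⟨e_0, e_1⟩` -/
def Sieg {F : Type} [Field F] (g : Matrix (Fin 4) (Fin 4) F) : Prop :=
  (∀ i j, (j = 0 ∨ j = 1) → g i j = if i = j then 1 else 0) ∧
    ∀ i j, (i = 2 ∨ i = 3) → g i j = if i = j then 1 else 0

/-- no proper `G₀`-stable subspace contains `e_0` -/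
def Irr0 {F : Type} [Field F] (G₀ : Subgroup (Matrix.SpecialLinearGroup (Fin 4) F)) : Prop :=
  ∀ U : Submodule F (Fin 4 → F), (∀ g ∈ G₀, ∀ u ∈ U, g.1.mulVec u ∈ U) →
    Pi.single 0 1 ∈ U → U = ⊤

/-! ## Group theory -/

/-- SG1: the transvections generate `Sp_4(F)`.  `x ↦ x + c B(x, v) v`.  (a) for `u, w ≠ 0`, `B(u, w) ≠ 0`, the transvection with `v = w - u`, `c B(u, w) = 1`, maps `u` to `w`; if `B(u, w) = 0` take `z` with `B(u, z), B(z, w) ≠ 0`: so the group `R` they generate is transitive on nonzero vectors.  (b) `g ∈ Sp_4`; after an element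
of `R`, `g e_3 = e_3`.  `w = g e_0`, `B(w, e_3) = 1 = B(e_0, e_3)`: if `B(w, e_0) ≠ 0` the transvection with `v = e_0 - w` maps `w` to `e_0` and fixes `e_3`; else go via `w + e_3`.  (c) `g` fixing `e_0, e_3` acts on `⟨e_1, e_2⟩` as an element of `SL_2`, a product of transvections with `v ∈ ⟨e_1, e_2⟩` -/
def S_SG1 : Prop := ∀ (F : Type) [Field F]
  (G₀ : Subgroup (Matrix.SpecialLinearGroup (Fin 4) F)), G₀ ≤ Sp4 F →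
  (∀ (g : Matrix.SpecialLinearGroup (Fin 4) F) (v : Fin 4 → F) (c : F),
    (∀ x, g.1.mulVec x = x + (c * frm x v) • v) → g ∈ G₀) → G₀ = Sp4 F

/-- SG2: let `S` be the set of `v ≠ 0` such that all `g ∈ Sp_4` which fix `v` and act trivially on `v^⊥ / v` are in `G₀`; it is stable under `G₀` and scalars, `e_0 ∈ S`.  By `Irr0` some `w = g e_0` is not in `e_0^⊥`.  For `v ∈ S`, `w ∈ S` with `B(w, v) ≠ 0`: all `x` with `B(x, v) = B(w, v)` are images of `w` (so all `x ∉ v^⊥` are in `S`); for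
`x ∈ v^⊥`, `x ≠ 0`, take `y ∉ v^⊥ ∪ x^⊥`, `y ∈ S`, `x ∉ y^⊥`.  So `S` is everything; `SG1` -/
def S_SG2 : Prop := ∀ (F : Type) [Field F] [Finite F]
  (G₀ : Subgroup (Matrix.SpecialLinearGroup (Fin 4) F)), G₀ ≤ Sp4 F → Irr0 G₀ →
  (∀ g ∈ Sp4 F, Heis g.1 → g ∈ G₀) → G₀ = Sp4 F

/-- SG3: `C` = the set of `v` such that all transvections `x ↦ x + c B(x, v) v` are in `G₀` (with `0`); `Λ = ⟨e_0, e_1⟩ ⊆ C`; `C` is stable under `G₀`, scalars; (*) `v, w ∈ C`, `B(v, w) ≠ 0` give `w + c v ∈ C`; for `w ∈ C`, `w ∉ Λ`, `w + Λ ⊆ C` (`Sieg`), and the same for `Λ' = g Λ`, `g ∈ G₀`.  By `Irr0` some `Λ' ≠ Λ`.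
If `Λ ∩ Λ' = 0` then `C ⊇ Λ + Λ'` = everything.  If `Λ ∩ Λ' = ⟨u⟩`: `C ⊇ Λ + Λ' = u^⊥`; by `Irr0` there is `w ∈ C` outside `u^⊥`; for `x` with `B(x, u) = B(w, u)`, `x - w ∈ u^⊥`: `x ∈ C` by (*) if `B(w, x - w) ≠ 0`, else go via `w + u`.  `SG1` -/
def S_SG3 : Prop := ∀ (F : Type) [Field F] [Finite F]
  (G₀ : Subgroup (Matrix.SpecialLinearGroup (Fin 4) F)), G₀ ≤ Sp4 F → Irr0 G₀ →
  (∀ g ∈ Sp4 F, Sieg g.1 → g ∈ G₀) → G₀ = Sp4 F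

/-! ## Upper bound -/

/-- SU1: `W` fixes some `u ≠ 0`, and a line of `u^⊥ / u`; so there is a `W`-stable isotropic plane `Λ ∋ u`.  The image of `W` in `GL(Λ)` is in the unitriangular group, `≅ F`, commutative; `K` = the kernel, `|W : K|` divides `q`.  If `z ∉ K`: `H = W`, `H₀ = K`, `d = 0`.
If `z ∈ K`: `H = K`, `H₀ = 1`: `K` acts trivially on `Λ` and on `V / Λ` (the dual), so it is commutative -/
def S_SU1 : Prop := ∀ (p f q : ℕ) (F : Type) [Field F] (W : Subgroup (Sp4 F)) (z : Sp4 F),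
  p.Prime → p ≠ 2 → 1 ≤ f → q = p ^ f → Nat.card F = q → (∃ n : ℕ, Nat.card W = p ^ n) →
  z ∈ W → z ≠ 1 → z ^ p = 1 → (∀ w ∈ W, w * z = z * w) → ∃ (H : Subgroup (Sp4 F)) (d : ℕ),
    H ≤ W ∧ z ∈ H ∧ Nat.card W = p ^ d * Nat.card H ∧ d ≤ f ∧ PSec p H z

/-- SU2: `W ≠ 1` is normalised by `g`.  `U = V^W ∩ (V^W)^⊥ ≠ 0` (`(V^W)^⊥ = [V, W]`, on which `W` fixes some nonzero vector), `g`-stable, isotropic.  `dim U = 1`: `g` acts by `a` on `U`, `a⁻¹` on `V / U^⊥`, `s ∈ SL_2(q)` on `U^⊥ / U`, the order of `s` divides `q - 1` or `q + 1`; so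
`g ^ ((q ^ 2 - 1) / 2)` is trivial on all three, and of order prime to `p`, so it is `1`.  `dim U = 2`: `g` acts on `U` by `g₁ ∈ GL_2(q)` of order dividing `q ^ 2 - 1`, `g₁ ^ ((q ^ 2 - 1) / 2) = ± 1` (eigenvalues `α, α ^ q`, or in `F`), the same on `V / U` -/
def S_SU2 : Prop := ∀ (p f q : ℕ) (F : Type) [Field F] (W : Subgroup (Sp4 F)) (g : Sp4 F),
  p.Prime → p ≠ 2 → 1 ≤ f → q = p ^ f → Nat.card F = q → (∃ n : ℕ, Nat.card W = p ^ n) →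
  W ≠ ⊥ → ¬ p ∣ orderOf g → (∀ w ∈ W, g * w * g⁻¹ ∈ W) →
  g ^ ((q ^ 2 - 1) / 2) ∈ Subgroup.center (Sp4 F)

/-- SU3: `GDW` (or `GDX`) for `Sp_4(F) ⧸ C`, `a = f`, `r = (q ^ 2 - 1) / 2`, as `UB3` (`Pool/Agent/H14/CTN/UB3.lean`); `C` has order prime to `p` (`SU2` is not needed for this: the centre is `± 1`) -/
def S_SU3 : Prop := ∀ (p f q : ℕ) (k F : Type) [Field k] [IsAlgClosed k] [CharP k p] [Field F]
  (C : Subgroup (Sp4 F)) [C.Normal], p.Prime → p ≠ 2 → 1 ≤ f → q = p ^ f → Nat.card F = q →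
  C ≤ Subgroup.center (Sp4 F) →
  (∀ c ∈ Cond k (Sp4 F ⧸ C), ∃ y : ℤ, ((q * ((q ^ 2 - 1) / 2) : ℕ) : ℚ) * c = y) ∧
  NG k (Sp4 F ⧸ C) ∣ q * ((q ^ 2 - 1) / 2)

/-! ## The covers -/

/-- SC1: `sB` of two roots is in `F` (`z ^ q = z`: `sB q a x y ^ q - sB q a x y = y ^ (q ^ 2) E(x) - x ^ (q ^ 2) E(y)`), `F`-bilinear, alternating, nondegenerate (for `y ≠ 0` the polynomial `sB q a x y` in `x` has degree `q ^ 3 < q ^ 4`); `G₀` preserves it (`ρ g` fixes `a`) -/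
def S_SC1 : Prop := ∀ (p : ℕ) (k F L : Type) [Field k] [IsAlgClosed k] [Field F] [Algebra F k]
  [Field L] [Algebra k L] (f q : ℕ) (t : L) (α β : k[X]) (X : Fin 4 → L)
  (G₀ : Subgroup (Matrix.SpecialLinearGroup (Fin 4) F)) (ρ : G₀ →* (L ≃ₐ[k] L)),
  p.Prime → CharP k p → 1 ≤ f → q = p ^ f → Nat.card F = q →
  (∀ i, X i ^ q ^ 4 - aeval t α ^ q * X i ^ q ^ 3 - aeval t β * X i ^ q ^ 2 -
    aeval t α * X i ^ q + X i = 0) →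
  (∀ c : Fin 4 → F, ∑ i, cst k F L (c i) * X i = 0 → c = 0) → NCover k F L t X G₀ ρ →
  ∃ M : Matrix (Fin 4) (Fin 4) F, M.det ≠ 0 ∧ Mᵀ = -M ∧ (∀ i, M i i = 0) ∧
    (∀ i j, sB q (aeval t α) (X i) (X j) = cst k F L (M i j)) ∧
    ∀ g ∈ G₀, g.1ᵀ * M * g.1 = M

/-- SC0: linear algebra: symplectic bases.  (1) with a given `u ≠ 0` as first vector; (2) with the first two vectors in a given isotropic plane (spanned by `u, v`) -/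
def S_SC0 : Prop := ∀ (F : Type) [Field F] (M : Matrix (Fin 4) (Fin 4) F),
  M.det ≠ 0 → Mᵀ = -M → (∀ i, M i i = 0) →
  (∀ u : Fin 4 → F, u ≠ 0 → ∃ h : Matrix (Fin 4) (Fin 4) F, h.det ≠ 0 ∧ hᵀ * M * h = J4s F ∧
    ∀ i, h i 0 = u i) ∧
  (∀ u v : Fin 4 → F, LinearIndependent F ![u, v] → u ⬝ᵥ (M *ᵥ v) = 0 →
    ∃ h : Matrix (Fin 4) (Fin 4) F, h.det ≠ 0 ∧ hᵀ * M * h = J4s F ∧
      (∀ i, h i 0 = u i) ∧ ∀ i, h i 1 = v i)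

/-- SC2 (II): `FN1.cover` (`Pool/Agent/H46/CTN/FN1.lean`), `EXI`, `SC1`, `SC0`, change of basis (as in `P41`, `Pool/Agent/H40/CTO/P41.lean`; its `basis`, `step`, `res` are general).  `o = P.ord x`: of `q ^ 4 o`, `- q e + q ^ 3 o`, `- e + q o`, `o` the least is taken twice: `(q - 1) o = e`, `q (q + 1) o = e`, `q ^ 2 (q - 1) o = - e`;
dimensions `≤ 1` (`x ^ (q - 1) = t⁻¹ (1 + ...)`), `≤ 2` (`x ^ (q (q ^ 2 - 1)) = - t ^ (1 - q) (...)`, residues of quotients in `F_(q ^ 2)`), `≤ 1`, so equal.  If `x` is small and `y` of order `> 0` then all terms of `sB q t x y` have positive order, so it is `0`: the hyperplane of the roots of order `> 0` is `X_0^⊥` -/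
def S_SC2 : Prop := ∀ (p : ℕ) (k F : Type) [Field k] [IsAlgClosed k] [Field F] [Algebra F k]
  (f q : ℕ), p.Prime → p ≠ 2 → CharP k p → 1 ≤ f → q = p ^ f → Nat.card F = q →
  ∃ (L : Type) (_ : Field L) (_ : Algebra k L) (t : L) (X : Fin 4 → L)
    (G₀ : Subgroup (Matrix.SpecialLinearGroup (Fin 4) F)) (ρ : G₀ →* (L ≃ₐ[k] L))
    (P : Place k L), SpR k F L q t t 0 X ∧ NCover k F L t X G₀ ρ ∧ G₀ ≤ Sp4 F ∧
      SpO2 k F L q t X P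

/-- SC3 (I): as `SC2`; of `q ^ 4 o`, `- e + q ^ 2 o`, `o` the least is taken twice (`q ^ 3 o`, `q o` are never least): `(q ^ 2 - 1) o = e` or `q ^ 2 (q ^ 2 - 1) o = - e`; dimensions `≤ 2` and `≤ 2` (residues in `F_(q ^ 2)`); the plane of the small roots is isotropic (the terms of `sB q 1 x y` have positive order) -/
def S_SC3 : Prop := ∀ (p : ℕ) (k F : Type) [Field k] [IsAlgClosed k] [Field F] [Algebra F k]
  (f q : ℕ), p.Prime → p ≠ 2 → CharP k p → 1 ≤ f → q = p ^ f → Nat.card F = q →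
  ∃ (L : Type) (_ : Field L) (_ : Algebra k L) (t : L) (X : Fin 4 → L)
    (G₀ : Subgroup (Matrix.SpecialLinearGroup (Fin 4) F)) (ρ : G₀ →* (L ≃ₐ[k] L))
    (P : Place k L), SpR k F L q t 1 t X ∧ NCover k F L t X G₀ ρ ∧ G₀ ≤ Sp4 F ∧
      SpO1 k F L q t X P

/-- SC4 (II): `P.ord (w x - x) > P.ord x` for `w ∈ ram P ρ 1`, `x ≠ 0` (as `P42`) -/
def S_SC4 : Prop := ∀ (p : ℕ) (k F L : Type) [Field k] [IsAlgClosed k] [Field F] [Algebra F k]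
  [Field L] [Algebra k L] (f q : ℕ) (t a b : L) (X : Fin 4 → L)
  (G₀ : Subgroup (Matrix.SpecialLinearGroup (Fin 4) F)) (ρ : G₀ →* (L ≃ₐ[k] L))
  (P : Place k L), p.Prime → p ≠ 2 → CharP k p → 1 ≤ f → q = p ^ f → Nat.card F = q →
  SpR k F L q t a b X → NCover k F L t X G₀ ρ → SpO2 k F L q t X P →
  ∀ w : G₀, w ∈ ram P ρ 1 → Heis w.1.1

/-- SC5 (I): as `SC4` -/
def S_SC5 : Prop := ∀ (p : ℕ) (k F L : Type) [Field k] [IsAlgClosed k] [Field F] [Algebra F k]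
  [Field L] [Algebra k L] (f q : ℕ) (t a b : L) (X : Fin 4 → L)
  (G₀ : Subgroup (Matrix.SpecialLinearGroup (Fin 4) F)) (ρ : G₀ →* (L ≃ₐ[k] L))
  (P : Place k L), p.Prime → p ≠ 2 → CharP k p → 1 ≤ f → q = p ^ f → Nat.card F = q →
  SpR k F L q t a b X → NCover k F L t X G₀ ρ → SpO1 k F L q t X P →
  ∀ w : G₀, w ∈ ram P ρ 1 → Sieg w.1.1

/-- SC6 (II): as `P33`: for a stable `U ∋ e_0` the product `π_U` of the `x_u`, `u ∈ U`, `u ≠ 0`, is in `k` (`π_U π' = ± 1`, both in `k[t]`), its order is `e` times: `U ⊆ e_0^⊥`, of dimension `j`: `1 + (q ^ j - q) / (q (q + 1)) > 0`; else `1 + (q ^ (j - 2) - 1) / (q + 1) - q ^ (j - 3)`, `> 0` for `j = 2, 3` -/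
def S_SC6 : Prop := ∀ (p : ℕ) (k F L : Type) [Field k] [IsAlgClosed k] [Field F] [Algebra F k]
  [Field L] [Algebra k L] (f q : ℕ) (t : L) (X : Fin 4 → L)
  (G₀ : Subgroup (Matrix.SpecialLinearGroup (Fin 4) F)) (ρ : G₀ →* (L ≃ₐ[k] L))
  (P : Place k L), p.Prime → p ≠ 2 → CharP k p → 1 ≤ f → q = p ^ f → Nat.card F = q →
  SpR k F L q t t 0 X → NCover k F L t X G₀ ρ → SpO2 k F L q t X P → Irr0 G₀

/-- SC7 (I): as `SC6`: the order is `e / (q ^ 2 - 1)` times `q ^ i - 1 - q ^ (j - 2) + q ^ (i - 2)`, `j = dim U`, `i = dim (U ∩ ⟨e_0, e_1⟩)`; `≠ 0` unless `i = 2, j = 4` (or `j = 0`) -/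
def S_SC7 : Prop := ∀ (p : ℕ) (k F L : Type) [Field k] [IsAlgClosed k] [Field F] [Algebra F k]
  [Field L] [Algebra k L] (f q : ℕ) (t : L) (X : Fin 4 → L)
  (G₀ : Subgroup (Matrix.SpecialLinearGroup (Fin 4) F)) (ρ : G₀ →* (L ≃ₐ[k] L))
  (P : Place k L), p.Prime → p ≠ 2 → CharP k p → 1 ≤ f → q = p ^ f → Nat.card F = q →
  SpR k F L q t 1 t X → NCover k F L t X G₀ ρ → SpO1 k F L q t X P → Irr0 G₀

/-- `X_j = y_j0 X_0 + y_j1 X_1`, `X_j ^ q = y_j0 X_0 ^ q + y_j1 X_1 ^ q`; `Z = (y_30, y_31, y_21)`, `D = X_0 X_1 ^ q - X_0 ^ q X_1` -/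
structure SpZ {L : Type} [Field L] (q : ℕ) (X : Fin 4 → L) (D : L) (Z : Fin 3 → L) : Prop where
  d : D = X 0 * X 1 ^ q - X 0 ^ q * X 1
  z0 : Z 0 = (X 3 * X 1 ^ q - X 3 ^ q * X 1) / D
  z1 : Z 1 = (X 3 ^ q * X 0 - X 3 * X 0 ^ q) / D
  z2 : Z 2 = (X 2 ^ q * X 0 - X 2 * X 0 ^ q) / D

/-- SC8: `Λ = ⟨X_0, X_1⟩`, `β = D ^ (q - 1)`, `R(T) = T ^ (q ^ 2) - (X_0 X_1 ^ (q ^ 2) - X_0 ^ (q ^ 2) X_1) / D T ^ q + β T` (roots `Λ`).  (a) for `i = 0, 1`: `sB q a (X i) y = - X_i ^ q R(y) ^ q + (X_i ^ (q ^ 2) / β) R(y)` for all `y` (the difference is `c_2 y ^ (q ^ 2) + c_1 y ^ q`, `0` at `X_0, X_1`, and `D ≠ 0`).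
(b) by `gram`: `R(X_3) = - X_1 ^ q / D`, `R(X_2) = X_0 ^ q / D`.  (c) `y_j0 ^ q - y_j0 = - R(X_j) X_1 ^ q / D ^ q`, `y_j1 ^ q - y_j1 = R(X_j) X_0 ^ q / D ^ q` -/
def S_SC8 : Prop := ∀ (p : ℕ) (k F L : Type) [Field k] [IsAlgClosed k] [Field F] [Algebra F k]
  [Field L] [Algebra k L] (f q : ℕ) (t a b D : L) (X : Fin 4 → L) (Z : Fin 3 → L),
  p.Prime → CharP k p → 1 ≤ f → q = p ^ f → Nat.card F = q → SpR k F L q t a b X →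
  SpZ q X D Z → D ≠ 0 ∧ X 0 ≠ 0 ∧ X 1 ≠ 0 ∧
    Z 0 ^ q - Z 0 = X 1 ^ (2 * q) / D ^ (q + 1) ∧
    Z 1 ^ q - Z 1 = -(X 0 ^ q * X 1 ^ q) / D ^ (q + 1) ∧
    Z 2 ^ q - Z 2 = X 0 ^ (2 * q) / D ^ (q + 1)

/-- SC9 (I): `Q = a_0 X_1 ^ 2 - a_1 X_0 X_1 + a_2 X_0 ^ 2`, the element is `Q ^ q / D ^ (q + 1)`; `o = P.ord (X 0)`, `(q ^ 2 - 1) o = e`, `P.ord D = (q + 1) o`.  `v = X_1 / X_0` has residue `μ ∈ F_(q ^ 2)`, `μ ∉ F`.  If `a_0 μ ^ 2 - a_1 μ + a_2 ≠ 0`, `P.ord Q = 2 o`.  Else `Q = a_0 X_0 ^ 2 (v - μ) (v - μ ^ q)`, `P.ord (v - μ) = (q - 1) o`: from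
`t (v ^ (q ^ 2) - v) X_0 ^ (q ^ 2) = - (v ^ q - v) X_0 ^ q - (v ^ (q ^ 3) - v) X_0 ^ (q ^ 3) + (v ^ (q ^ 4) - v) X_0 ^ (q ^ 4)`, `t X_0 ^ (q ^ 2) = X_0 - X_0 ^ q - X_0 ^ (q ^ 3) + X_0 ^ (q ^ 4)`; so `P.ord Q = (q + 1) o` -/
def S_SC9 : Prop := ∀ (p : ℕ) (k F L : Type) [Field k] [IsAlgClosed k] [Field F] [Algebra F k]
  [Field L] [Algebra k L] (f q : ℕ) (t D : L) (X : Fin 4 → L) (Z : Fin 3 → L) (P : Place k L)
  (a : Fin 3 → F), p.Prime → p ≠ 2 → CharP k p → 1 ≤ f → q = p ^ f → Nat.card F = q →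
  SpR k F L q t 1 t X → SpO1 k F L q t X P → SpZ q X D Z → a ≠ 0 →
  (∑ i, cst k F L (a i) * (Z i ^ q - Z i)) ≠ 0 ∧
  (((q : ℤ) ^ 2 - 1) * P.ord (∑ i, cst k F L (a i) * (Z i ^ q - Z i)) =
      ((q : ℤ) ^ 2 + 1) * P.ord t ∨
    (a ≠ ![1, 0, 0] ∧ ((q : ℤ) ^ 2 - 1) * P.ord (∑ i, cst k F L (a i) * (Z i ^ q - Z i)) =
      ((q : ℤ) + 1) * P.ord t))

/-- SC10 (I): as `T42` (`Pool/Agent/H16/CTL/T42.lean`): `UMR` with `r = 3`, `N = ⊥`, `c g = (g 0 3, g 1 3, g 1 2)` (`g 0 2 = g 1 3` for `g ∈ Sp_4`), `D = (q ^ 2 + 1) e_t / (q ^ 2 - 1)`, `e_t = |I : W|`, the other values of `Da` are `e_t / (q - 1)`; the elements of `SC9` are fixed by `W`, so `|W|` divides their orders; `ρ w (Z i) = Z i + c w i`; the conductor is `D / e_t` -/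
def S_SC10 : Prop := ∀ (p : ℕ) (k F L : Type) [Field k] [IsAlgClosed k] [Field F] [Algebra F k]
  [Field L] [Algebra k L] (f q : ℕ) (t : L) (X : Fin 4 → L)
  (G₀ : Subgroup (Matrix.SpecialLinearGroup (Fin 4) F)) (ρ : G₀ →* (L ≃ₐ[k] L))
  (P : Place k L), p.Prime → p ≠ 2 → CharP k p → 1 ≤ f → q = p ^ f → Nat.card F = q →
  SpR k F L q t 1 t X → NCover k F L t X G₀ ρ → G₀ ≤ Sp4 F → SpO1 k F L q t X P →
  (∀ g ∈ Sp4 F, Sieg g.1 → g ∈ G₀) ∧ IsConductor P ρ (((q : ℚ) ^ 2 + 1) / ((q : ℚ) ^ 2 - 1))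

/-- SC11 (I): `SC3`, `SC7`, `SC10`, `SG3` (`G₀ = Sp4 F`, `subst`) -/
def S_SC11 : Prop := ∀ (p : ℕ) (k F : Type) [Field k] [IsAlgClosed k] [Field F] [Algebra F k]
  (f q : ℕ), p.Prime → p ≠ 2 → CharP k p → 1 ≤ f → q = p ^ f → Nat.card F = q →
  ((q : ℚ) ^ 2 + 1) / ((q : ℚ) ^ 2 - 1) ∈ Cond k (Sp4 F)

/-- SC12 (II): `v = X_1 / X_0`, `A = v ^ q - v`, `D = X_0 ^ (q + 1) A`, `K = A ^ (q + 1) X_0 ^ (q ^ 2 + 1)`; `X_1 ^ (2 q) / D ^ (q + 1) = v ^ (2 q) / K`.  `S = t X_0 ^ q - X_0 = X_0 ^ (q ^ 4) - t ^ q X_0 ^ (q ^ 3)`, so `- S = X_0 ^ (q ^ 3 - q ^ 2 + q) + X_0 ^ (q ^ 3 - q ^ 2) S ^ q - X_0 ^ (q ^ 4)`; `E(X_1) = v E(X_0) = 0` gives `A X_0 = A ^ (q ^ 3) X_0 ^ (q ^ 4) + (A ^ q + A ^ (q ^ 2)) S`.  So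
`A X_0 (K ^ (q - 1) + 1) = A ^ (q ^ 3) X_0 ^ (q ^ 4) + A ^ q S - A ^ (q ^ 2) X_0 ^ (q ^ 3 - q ^ 2) S ^ q + A ^ (q ^ 2) X_0 ^ (q ^ 4)`.  Orders, unit `w = e / (q ^ 2 - 1)`: `X_0`: `q + 1`; `A`: `- (q ^ 2 + 1)`; `S`: `(q + 1) (q ^ 3 - q ^ 2 + q)`; so `A X_0`: `- q (q - 1)`, right side `≥ q ^ 3 (q - 1)`, `P.ord (K ^ (q - 1) + 1) ≥ q (q - 1) (q ^ 2 + 1) w`;
`K` has a residue `κ' ≠ 0`, `κ' ^ q = - κ'`, and `P.ord (K - κ') = P.ord (K ^ q + K)` is as large; `v ^ (2 q)`: `- 2 (q ^ 2 + 1) w` -/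
def S_SC12 : Prop := ∀ (p : ℕ) (k F L : Type) [Field k] [IsAlgClosed k] [Field F] [Algebra F k]
  [Field L] [Algebra k L] (f q : ℕ) (t D : L) (X : Fin 4 → L) (P : Place k L),
  p.Prime → p ≠ 2 → CharP k p → 1 ≤ f → q = p ^ f → Nat.card F = q →
  SpR k F L q t t 0 X → SpO2 k F L q t X P → D = X 0 * X 1 ^ q - X 0 ^ q * X 1 →
  (q : ℤ) * ((q : ℤ) ^ 2 - 1) * P.ord (X 1 / X 0) = ((q : ℤ) ^ 2 + 1) * P.ord t ∧
  ∃ κ : k, κ ≠ 0 ∧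
    P.Ge (X 1 ^ (2 * q) / D ^ (q + 1) - algebraMap k L κ * (X 1 / X 0) ^ (2 * q)) 0 ∧
    P.Ge (X 0 ^ q * X 1 ^ q / D ^ (q + 1) - algebraMap k L κ * (X 1 / X 0) ^ q) 0

/-- SC13 (II): `W = ram P ρ 1`, `v = X_1 / X_0`, `w v = v + w 0 1`, `M = {w ∈ W : w 0 1 = 0}`.  (a) `UMR` for `W`, `N = M`, `r = 1`, `Z = v`: `v ^ q - v` is fixed by `W`, of order `- D_1 |W|`, `D_1 = (q ^ 2 + 1) e_t / (q ^ 2 - 1)`, `e_t = |I : W|`: `|W| = q |M|`, coset sums `|M| D_1`.  (b) `P.ord v = - D_1 |M|`.  `UMR` for `M`, `N = ⊥`, `r = 2`, `Z = (y_30, y_31)`, `c w = (w 0 3, w 1 3)`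
(`w 0 2 = w 1 3`): `∑ a_i (Z_i ^ q - Z_i) = κ (a_0 v ^ (2 q) - a_1 v ^ q) + ...` (`SC8`, `SC12`), `g = ∑_(i < f) (a_0' v ^ 2 - a_1' v) ^ (p ^ i)`, `a' ^ q = κ a`: `Da = 2 D_1` or `D_1`; so `M` is full, `U(M) = 2 D_1`.  (c) `LC1` with `D = 2 D_1`, `τ = D_1` -/
def S_SC13 : Prop := ∀ (p : ℕ) (k F L : Type) [Field k] [IsAlgClosed k] [Field F] [Algebra F k]
  [Field L] [Algebra k L] (f q : ℕ) (t : L) (X : Fin 4 → L)
  (G₀ : Subgroup (Matrix.SpecialLinearGroup (Fin 4) F)) (ρ : G₀ →* (L ≃ₐ[k] L))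
  (P : Place k L), p.Prime → p ≠ 2 → CharP k p → 1 ≤ f → q = p ^ f → Nat.card F = q →
  SpR k F L q t t 0 X → NCover k F L t X G₀ ρ → G₀ ≤ Sp4 F → SpO2 k F L q t X P →
  (∀ g ∈ Sp4 F, Heis g.1 → g ∈ G₀) ∧
    IsConductor P ρ (((q : ℚ) ^ 2 + 1) / ((q : ℚ) * ((q : ℚ) - 1)))

/-- SC14 (II): `SC2`, `SC6`, `SC13`, `SG2` -/
def S_SC14 : Prop := ∀ (p : ℕ) (k F : Type) [Field k] [IsAlgClosed k] [Field F] [Algebra F k]
  (f q : ℕ), p.Prime → p ≠ 2 → CharP k p → 1 ≤ f → q = p ^ f → Nat.card F = q →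
  ((q : ℚ) ^ 2 + 1) / ((q : ℚ) * ((q : ℚ) - 1)) ∈ Cond k (Sp4 F)

/-- SFI: `ALL` for the two conductors (`gcd(q ^ 2 + 1, q ^ 2 - 1) = 2`, `gcd(q ^ 2 + 1, q) = 1`), `NQD`, `SU3`; as `RFN` / `PFN` (`F` embeds in `k`) -/
def S_SFI : Prop := ∀ (p : ℕ) (k F : Type) [Field k] [IsAlgClosed k] [Field F] (f q : ℕ),
  p.Prime → p ≠ 2 → CharP k p → 1 ≤ f → q = p ^ f → Nat.card F = q →
  ∀ (C : Subgroup (Sp4 F)) [C.Normal], C ≤ Subgroup.center (Sp4 F) →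
  NG k (Sp4 F ⧸ C) = q * ((q ^ 2 - 1) / 2)

/-- SHC: a cover of the quotient, from `SC11`; as `HC4` / `HC5` -/
def S_SHC : Prop := ∀ (p : ℕ) (k F : Type) [Field k] [IsAlgClosed k] [Field F] (f q : ℕ),
  p.Prime → p ≠ 2 → CharP k p → 1 ≤ f → q = p ^ f → Nat.card F = q →
  ∀ (C : Subgroup (Sp4 F)) [C.Normal], C ≤ Subgroup.center (Sp4 F) → HasCover k (Sp4 F ⧸ C)

/-- `LieN`, or `p` odd and a quotient of `Sp_4(q)` by a central subgroup, `N = q (q ^ 2 - 1) / 2` -/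
def LieS (p : ℕ) (G : Type) [Group G] (N : ℕ) : Prop :=
  LieN p G N ∨ (p ≠ 2 ∧ ∃ (F : Type) (_ : Field F) (f q : ℕ) (C : Subgroup (Sp4 F))
    (_ : C.Normal), 1 ≤ f ∧ q = p ^ f ∧ Nat.card F = q ∧ C ≤ Subgroup.center _ ∧
    Nonempty (G ≃* Sp4 F ⧸ C) ∧ N = q * ((q ^ 2 - 1) / 2))

/-- LTY: as `LTX` (`Pool/Agent/H46/CTP/LTX.lean`), with `SFI`, `SHC` -/
def S_LTY : Prop := ∀ (p n : ℕ) (k : Type) [Field k] [IsAlgClosed k] [CharP k p]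
  (G : Fin n → Type) [∀ i, Group (G i)] (N : Fin n → ℕ), p.Prime →
  (∀ i, LieS p (G i) (N i)) → NG k (∀ i, G i) = (Finset.univ : Finset (Fin n)).lcm N

end Pool.CND
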